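import Pool.Agent.H364B.Guess

/-!
If every countably perfectly meager subset of `2^ℕ` is countably perfectly null, then
`cov(N) < non(M) ≤ non(E)`, where `E` is the `σ`-ideal of the null `F_σ` sets, and almost every
point is covered by fewer than `non(M)` small sets of a prescribed form.
-/

set_option autoImplicit false

open Set Filter Topology Cardinal MeasureTheory

namespace Pool.Agent.Results.MP_40b13d_lc.InvariantsOfModel

open Pool.Agent.H364B (Catches exists_nonmeagre catches_of_nonmeagre exists_prefix isOpen_prefix)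

/-- the Cantor space `2^ℕ` -/
abbrev CS : Type := ℕ → Bool

/-- A perfect set: nonempty, closed, and without (relatively) isolated points. -/
def PerfectSet (P : Set CS) : Prop :=
  P.Nonempty ∧ IsClosed P ∧ ∀ x ∈ P, ∀ U : Set CS, IsOpen U → x ∈ U → ∃ y ∈ P, y ∈ U ∧ y ≠ x

/-- An `F_σ` set: a union of countably many closed sets. -/
def IsFSigma (F : Set CS) : Prop :=
  ∃ C : ℕ → Set CS, (∀ n, IsClosed (C n)) ∧ F = ⋃ n, C n

/-- `A` is countably perfectly meager: for each sequence of perfect sets `P n` there is an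
`F_σ` set `F ⊇ A` such that every `F ∩ P n` is meager in the relative topology of `P n`. -/
def CountablyPerfectlyMeager (A : Set CS) : Prop :=
  ∀ P : ℕ → Set CS, (∀ n, PerfectSet (P n)) →
    ∃ F : Set CS, IsFSigma F ∧ A ⊆ F ∧ ∀ n, IsMeagre {z : P n | (z : CS) ∈ F}

/-- `μ` is a finite non-atomic measure: `μ X < ∞` and `μ {x} = 0` for every `x`. -/
def FiniteNonAtomic (μ : Measure CS) : Prop :=
  μ univ < ⊤ ∧ ∀ x, μ {x} = 0

/-- `A` is countably perfectly null: for every finite non-atomic Borel measure `μ` there is an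
`F_σ` set `F ⊇ A` with `μ F = 0`. -/
def CountablyPerfectlyNull (A : Set CS) : Prop :=
  ∀ μ : Measure CS, FiniteNonAtomic μ → ∃ F : Set CS, IsFSigma F ∧ A ⊆ F ∧ μ F = 0

/-! ### Closed sets and `F_σ` sets -/

/-- the set of points which belong to only finitely many of the sets `O m` -/
def fin (O : ℕ → Set CS) : Set CS := {x | ∀ᶠ m in atTop, x ∉ O m}

theorem fin_eq (O : ℕ → Set CS) : fin O = ⋃ M : ℕ, ⋂ m : ℕ, ⋂ _ : M ≤ m, (O m)ᶜ := by
  ext x
  simp [fin, eventually_atTop]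

theorem fin_isFSigma {O : ℕ → Set CS} (hO : ∀ m, IsOpen (O m)) : IsFSigma (fin O) :=
  ⟨_, fun _ => isClosed_iInter fun m => isClosed_iInter fun _ => (hO m).isClosed_compl, fin_eq O⟩

/-- a countable base -/
theorem exists_base : ∃ V : ℕ → Set CS, (∀ j, IsOpen (V j)) ∧
    ∀ U : Set CS, IsOpen U → ∀ x ∈ U, ∃ j, x ∈ V j ∧ V j ⊆ U := by
  have hne : (TopologicalSpace.countableBasis CS).Nonempty := by
    obtain ⟨v, hv, _⟩ := (TopologicalSpace.isBasis_countableBasis CS).exists_subset_of_mem_open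
      (mem_univ (fun _ => false)) isOpen_univ
    exact ⟨v, hv⟩
  obtain ⟨V, hV⟩ := (TopologicalSpace.countable_countableBasis CS).exists_eq_range hne
  refine ⟨V, fun j => ?_, fun U hU x hx => ?_⟩
  · exact (TopologicalSpace.isBasis_countableBasis CS).isOpen (hV ▸ mem_range_self j)
  · obtain ⟨v, hv, hxv, hvU⟩ :=
      (TopologicalSpace.isBasis_countableBasis CS).exists_subset_of_mem_open hx hU
    rw [hV] at hv
    obtain ⟨j, rfl⟩ := hv
    exact ⟨j, hxv, hvU⟩

/-- if infinitely many of the open sets `O m` meet `P ∩ V` for every basic `V` meeting `P`, then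
`fin O` is meager in `P` -/
theorem fin_meagre {O : ℕ → Set CS} (hO : ∀ m, IsOpen (O m)) {V : ℕ → Set CS}
    (hV : ∀ U : Set CS, IsOpen U → ∀ x ∈ U, ∃ j, x ∈ V j ∧ V j ⊆ U) (P : Set CS)
    (h : ∀ j, (P ∩ V j).Nonempty → ∀ M, ∃ m ≥ M, (O m ∩ (P ∩ V j)).Nonempty) :
    IsMeagre {z : P | (z : CS) ∈ fin O} := by
  have h1 : {z : P | (z : CS) ∈ fin O} =
      ⋃ M : ℕ, {z : P | ∀ m, M ≤ m → (z : CS) ∉ O m} := by
    ext z
    simp [fin, eventually_atTop]
  rw [h1]
  refine isMeagre_iUnion fun M => IsNowhereDense.isMeagre ?_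
  have hc : IsClosed {z : P | ∀ m, M ≤ m → (z : CS) ∉ O m} := by
    have : {z : P | ∀ m, M ≤ m → (z : CS) ∉ O m} =
        ⋂ m : ℕ, ⋂ _ : M ≤ m, (((↑) : P → CS) ⁻¹' (O m))ᶜ := by
      ext z; simp
    rw [this]
    exact isClosed_iInter fun m => isClosed_iInter fun _ =>
      ((hO m).preimage continuous_subtype_val).isClosed_compl
  show interior (closure _) = ∅
  rw [hc.closure_eq]
  by_contra hne
  obtain ⟨z, hz⟩ := nonempty_iff_ne_empty.2 hne
  obtain ⟨U, hU, hUe⟩ := isOpen_induced_iff.1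
    (isOpen_interior (s := {z : P | ∀ m, M ≤ m → (z : CS) ∉ O m}))
  have hzU : (z : CS) ∈ U := by
    have : z ∈ ((↑) : P → CS) ⁻¹' U := hUe ▸ hz
    exact this
  obtain ⟨j, hj1, hj2⟩ := hV U hU z hzU
  obtain ⟨m, hm, w, hw1, hw2, hw3⟩ := h j ⟨z, z.2, hj1⟩ M
  have h2 : (⟨w, hw2⟩ : P) ∈ ((↑) : P → CS) ⁻¹' U := hj2 hw3
  rw [hUe] at h2
  exact interior_subset h2 m hm hw1

theorem IsFSigma.union {F G : Set CS} (hF : IsFSigma F) (hG : IsFSigma G) : IsFSigma (F ∪ G) := by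
  obtain ⟨C, hC, rfl⟩ := hF
  obtain ⟨D, hD, rfl⟩ := hG
  refine ⟨fun n => C n ∪ D n, fun n => (hC n).union (hD n), ?_⟩
  rw [iUnion_union_distrib]

/-! ### Disjoint open sets meeting a perfect set -/

theorem isOpen_coord (i : ℕ) (S : Set Bool) : IsOpen {x : CS | x i ∈ S} :=
  (isOpen_discrete S).preimage (continuous_apply i : Continuous fun x : CS => x i)

theorem exists_disjoint {P V : Set CS} (hP : PerfectSet P) (hV : IsOpen V)
    (hne : (P ∩ V).Nonempty) :
    ∃ B : ℕ → Set CS, (∀ i, IsOpen (B i)) ∧ (∀ i, (B i ∩ (P ∩ V)).Nonempty) ∧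
      ∀ i i' x, x ∈ B i → x ∈ B i' → i = i' := by
  obtain ⟨x₀, hx₀P, hx₀V⟩ := hne
  let D : ℕ → Set CS := fun l => {x | (∀ i < l, x i = x₀ i) ∧ x l ≠ x₀ l}
  have hDo : ∀ l, IsOpen (D l) := by
    intro l
    have h1 : D l = (⋂ i ∈ Finset.range l, {x : CS | x i = x₀ i}) ∩ {x : CS | x l ≠ x₀ l} := by
      ext x; simp [D]
    rw [h1]
    refine IsOpen.inter (isOpen_biInter_finset fun i _ => ?_) ?_
    · exact isOpen_coord i {x₀ i}
    · exact isOpen_coord l {b | b ≠ x₀ l}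
  have hDd : ∀ l l' x, x ∈ D l → x ∈ D l' → l = l' := by
    intro l l' x h h'
    rcases lt_trichotomy l l' with h1 | h1 | h1
    · exact absurd (h'.1 l h1) h.2
    · exact h1
    · exact absurd (h.1 l' h1) h'.2
  have hinf : (Set.ofPred fun l => (D l ∩ (P ∩ V)).Nonempty).Infinite := by
    refine Set.infinite_of_not_bddAbove ?_
    rintro ⟨b, hb⟩
    have hUo : IsOpen ({x : CS | ∀ i ∈ Finset.range (b + 1), x i = x₀ i} ∩ V) := by
      refine IsOpen.inter ?_ hV
      have : {x : CS | ∀ i ∈ Finset.range (b + 1), x i = x₀ i} =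
          ⋂ i ∈ Finset.range (b + 1), {x : CS | x i = x₀ i} := by ext x; simp
      rw [this]
      exact isOpen_biInter_finset fun i _ => isOpen_coord i {x₀ i}
    obtain ⟨y, hyP, ⟨hy1, hy2⟩, hy3⟩ := hP.2.2 x₀ hx₀P _ hUo ⟨fun _ _ => rfl, hx₀V⟩
    have hex : ∃ l, y l ≠ x₀ l := Function.ne_iff.1 hy3
    classical
    have hl := Nat.find_spec hex
    have hl' : b + 1 ≤ Nat.find hex := by
      by_contra hcon
      exact hl (hy1 _ (Finset.mem_range.2 (not_le.1 hcon)))
    have hmem : Nat.find hex ∈ (Set.ofPred fun l => (D l ∩ (P ∩ V)).Nonempty) := by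
      refine ⟨y, ⟨fun i hi => ?_, hl⟩, hyP, hy2⟩
      by_contra hcon
      exact Nat.find_min hex hi hcon
    have := hb hmem
    omega
  refine ⟨fun i => D (Nat.nth (fun l => (D l ∩ (P ∩ V)).Nonempty) i), fun i => hDo _, fun i => ?_, ?_⟩
  · exact Nat.nth_mem_of_infinite hinf i
  · intro i i' x h h'
    exact Nat.nth_injective hinf (hDd _ _ x h h')


/-! ### Families which agree infinitely often with every function -/

/-- the least size of a family which catches every function -/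
noncomputable def kap : Cardinal.{0} := sInf {c | ∃ Y : Set (ℕ → ℕ), Catches Y ∧ #Y = c}

theorem kap_mem : ∃ Y : Set (ℕ → ℕ), Catches Y ∧ #Y = kap :=
  csInf_mem (s := {c : Cardinal.{0} | ∃ Y : Set (ℕ → ℕ), Catches Y ∧ #Y = c})
    ⟨_, univ, fun g => ⟨g, mem_univ _, Frequently.of_forall fun _ => rfl⟩, rfl⟩

theorem not_catches {Y : Set (ℕ → ℕ)} (h : #Y < kap) :
    ∃ g : ℕ → ℕ, ∀ y ∈ Y, ∀ᶠ n in atTop, y n ≠ g n := by
  have h1 : ¬ Catches Y := by
    intro hY
    have h2 : kap ≤ #Y := csInf_le' ⟨Y, hY, rfl⟩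
    exact absurd h2 (not_le.2 h)
  unfold Catches at h1
  push Not at h1
  exact h1

theorem aleph0_le_kap : ℵ₀ ≤ kap := by
  obtain ⟨Y, hY, hYk⟩ := kap_mem
  rw [← hYk]
  by_contra hcon
  rw [not_le, Cardinal.lt_aleph0_iff_set_finite] at hcon
  obtain ⟨y, hy, hf⟩ := hY fun n => ∑ y ∈ hcon.toFinset, y n + 1
  obtain ⟨n, hn⟩ := hf.exists
  have : y n ≤ ∑ y ∈ hcon.toFinset, y n :=
    Finset.single_le_sum (f := fun y : ℕ → ℕ => y n) (fun _ _ => Nat.zero_le _) (hcon.mem_toFinset.2 hy)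
  omega

/-- Every set with fewer than `kap` elements is countably perfectly meager. -/
theorem small_pm {A : Set CS} (hA : #A < kap) : CountablyPerfectlyMeager A := by
  classical
  intro P hP
  obtain ⟨V, hVo, hV⟩ := exists_base
  have hB : ∀ m : ℕ, ∃ B : ℕ → Set CS, (∀ i, IsOpen (B i)) ∧
      ((P (Nat.unpair (Nat.unpair m).1).1 ∩ V (Nat.unpair (Nat.unpair m).1).2).Nonempty →
        ∀ i, (B i ∩ (P (Nat.unpair (Nat.unpair m).1).1 ∩
          V (Nat.unpair (Nat.unpair m).1).2)).Nonempty) ∧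
      ∀ i i' x, x ∈ B i → x ∈ B i' → i = i' := by
    intro m
    by_cases hne : (P (Nat.unpair (Nat.unpair m).1).1 ∩ V (Nat.unpair (Nat.unpair m).1).2).Nonempty
    · obtain ⟨B, h1, h2, h3⟩ := exists_disjoint (hP _) (hVo _) hne
      exact ⟨B, h1, fun _ => h2, h3⟩
    · exact ⟨fun _ => ∅, fun _ => isOpen_empty, fun h => absurd h hne, fun i i' x h => absurd h (by simp)⟩
  choose B hBo hBn hBd using hB
  let g : CS → ℕ → ℕ := fun a m => if h : ∃ i, a ∈ B m i then Classical.choose h else 0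
  have hg : ∀ a m i, a ∈ B m i → g a m = i := by
    intro a m i hi
    have hex : ∃ i, a ∈ B m i := ⟨i, hi⟩
    have h1 : g a m = Classical.choose hex := dif_pos hex
    rw [h1]
    exact hBd m _ _ a (Classical.choose_spec hex) hi
  obtain ⟨h, hh⟩ := not_catches (Y := g '' A) (Cardinal.mk_image_le.trans_lt hA)
  refine ⟨fin fun m => B m (h m), fin_isFSigma fun m => hBo m _, ?_, fun k => ?_⟩
  · intro a ha
    refine (hh _ (mem_image_of_mem g ha)).mono fun m hm hc => hm (hg a m _ hc)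
  · refine fin_meagre (fun m => hBo m _) hV _ fun j hj M => ?_
    refine ⟨Nat.pair (Nat.pair k j) M, Nat.right_le_pair _ _, ?_⟩
    have := hBn (Nat.pair (Nat.pair k j) M)
    simp only [Nat.unpair_pair] at this
    exact this hj _

/-! ### The null sets `N y` -/

theorem exists_open_codes (ν : Measure CS) [IsFiniteMeasure ν] :
    ∃ Q : ℕ → Set CS, (∀ j, IsOpen (Q j)) ∧ ∀ K : Set CS, IsClosed K → ν K = 0 →
      ∀ ε : ENNReal, ε ≠ 0 → ∃ j, K ⊆ Q j ∧ ν (Q j) ≤ ε := by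
  have : Countable (TopologicalSpace.Clopens CS) :=
    TopologicalSpace.Clopens.countable_iff_secondCountable.2 inferInstance
  obtain ⟨q, hq⟩ := exists_surjective_nat (TopologicalSpace.Clopens CS)
  refine ⟨fun j => (q j : Set CS), fun j => (q j).isClopen.isOpen, ?_⟩
  intro K hK hK0 ε hε
  obtain ⟨U, hKU, hU, hUε⟩ := K.exists_isOpen_lt_of_lt (μ := ν) ε (by rw [hK0]; exact pos_iff_ne_zero.2 hε)
  obtain ⟨C, hC, hKC, hCU⟩ := exists_clopen_of_closed_subset_open hK hU hKU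
  obtain ⟨j, hj⟩ := hq ⟨C, hC⟩
  refine ⟨j, ?_, ?_⟩
  · show K ⊆ (q j : Set CS)
    rw [hj]; exact hKC
  · show ν (q j : Set CS) ≤ ε
    rw [hj]; exact (measure_mono hCU).trans hUε.le

/-- the least size of a set which is not contained in any `ν`-null `F_σ` set -/
noncomputable def nonE (ν : Measure CS) : Cardinal.{0} :=
  sInf {c | ∃ S : Set CS, (∀ F : Set CS, IsFSigma F → S ⊆ F → ν F ≠ 0) ∧ #S = c}

/-- the least size of a family of `ν`-null sets which covers `2^ℕ` -/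
noncomputable def covN (ν : Measure CS) : Cardinal.{0} :=
  sInf {c | ∃ R : Set (Set CS), (∀ N ∈ R, ν N = 0) ∧ ⋃₀ R = (Set.univ : Set CS) ∧ #R = c}

/-- a small set which is not contained in a null `F_σ` set -/
theorem of_nonE {ν : Measure CS} (h0 : ν univ ≠ 0) (h : nonE ν < kap) :
    ∃ A : Set CS, CountablyPerfectlyMeager A ∧ ∀ F : Set CS, IsFSigma F → A ⊆ F → ν F ≠ 0 := by
  obtain ⟨S, hS, hc⟩ := csInf_mem
    (s := {c : Cardinal.{0} | ∃ S : Set CS, (∀ F : Set CS, IsFSigma F → S ⊆ F → ν F ≠ 0) ∧ #S = c})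
    ⟨_, univ, fun F _ hF => by rw [univ_subset_iff.1 hF]; exact h0, rfl⟩
  exact ⟨S, small_pm (hc.trans_lt h), hS⟩

theorem of_covN {ν : Measure CS} (hν : FiniteNonAtomic ν) (h : kap ≤ covN ν) :
    ∃ A : Set CS, CountablyPerfectlyMeager A ∧ ∀ F : Set CS, IsFSigma F → A ⊆ F → ν F ≠ 0 := by
  classical
  have : IsFiniteMeasure ν := ⟨hν.1⟩
  obtain ⟨Y, hY, hYk⟩ := kap_mem
  obtain ⟨Q, hQo, hQ⟩ := exists_open_codes ν
  -- the open sets of small measure coded by `y`
  let O : (ℕ → ℕ) → ℕ → Set CS := fun y n => if ν (Q (y n)) ≤ (2⁻¹ : ENNReal) ^ n then Q (y n) else ∅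
  have hOo : ∀ y n, IsOpen (O y n) := by
    intro y n
    by_cases hn : ν (Q (y n)) ≤ (2⁻¹ : ENNReal) ^ n
    · have : O y n = Q (y n) := if_pos hn
      rw [this]; exact hQo _
    · have : O y n = ∅ := if_neg hn
      rw [this]; exact isOpen_empty
  have hOle : ∀ y n, ν (O y n) ≤ (2⁻¹ : ENNReal) ^ n := by
    intro y n
    by_cases hn : ν (Q (y n)) ≤ (2⁻¹ : ENNReal) ^ n
    · have : O y n = Q (y n) := if_pos hn
      rw [this]; exact hn
    · have : O y n = ∅ := if_neg hn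
      rw [this, measure_empty]; exact zero_le
  let N : (ℕ → ℕ) → Set CS := fun y => {x | ∃ᶠ n in atTop, x ∈ O y n}
  have hN0 : ∀ y, ν (N y) = 0 := by
    intro y
    refine measure_setOfPred_frequently_eq_zero ?_
    refine ne_top_of_le_ne_top ?_ (ENNReal.tsum_le_tsum (hOle y))
    rw [ENNReal.tsum_geometric]
    simp
  have hfin : ∀ y, fin (O y) = (N y)ᶜ := by
    intro y
    ext x
    show (∀ᶠ m in atTop, x ∉ O y m) ↔ ¬ ∃ᶠ n in atTop, x ∈ O y n
    rw [not_frequently]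
  -- indices
  let I : Type := kap.ord.ToType
  have hI : #I = kap := by simp [I]
  obtain ⟨e⟩ : Nonempty (I ≃ Y) := Cardinal.eq.1 (hI.trans hYk.symm)
  have hIic : ∀ ξ : I, #(Iic ξ) < kap := by
    intro ξ
    have h1 : #(Iio ξ) < kap := by
      have := Cardinal.mk_Iio_lt ξ (by simp [I])
      rwa [hI] at this
    have h2 : (Iic ξ : Set I) = insert ξ (Iio ξ) := Iio_insert.symm
    rw [h2]
    refine (Cardinal.mk_insert_le).trans_lt ?_
    exact Cardinal.add_lt_of_lt aleph0_le_kap h1 (Cardinal.one_lt_aleph0.trans_le aleph0_le_kap)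
  have ha : ∀ ξ : I, ∃ a : CS, ∀ η ≤ ξ, a ∉ N (e η : ℕ → ℕ) := by
    intro ξ
    by_contra hcon
    push Not at hcon
    have h1 : covN ν ≤ #((fun η : I => N (e η : ℕ → ℕ)) '' Iic ξ) := by
      refine csInf_le' ⟨_, ?_, ?_, rfl⟩
      · rintro _ ⟨η, _, rfl⟩
        exact hN0 _
      · refine eq_univ_of_forall fun x => ?_
        obtain ⟨η, hη, hx⟩ := hcon x
        exact ⟨_, ⟨η, hη, rfl⟩, hx⟩
    exact absurd (h.trans (h1.trans Cardinal.mk_image_le)) (not_le.2 (hIic ξ))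
  choose a ha using ha
  refine ⟨range a, ?_, ?_⟩
  · intro P hP
    obtain ⟨V, hVo, hV⟩ := exists_base
    -- a small open set meeting the first sets `P k ∩ V j`
    have hq : ∀ m : ℕ, ∃ j, ν (Q j) ≤ (2⁻¹ : ENNReal) ^ m ∧
        ∀ k ≤ m, ∀ l ≤ m, (P k ∩ V l).Nonempty → (Q j ∩ (P k ∩ V l)).Nonempty := by
      intro m
      let S : Set CS := ⋃ k ∈ Finset.range (m + 1), ⋃ l ∈ Finset.range (m + 1),
        (if h : (P k ∩ V l).Nonempty then {h.some} else ∅)
      have hSf : S.Finite := by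
        refine Set.Finite.biUnion (Finset.finite_toSet _) fun k _ =>
          Set.Finite.biUnion (Finset.finite_toSet _) fun l _ => ?_
        by_cases hkl : (P k ∩ V l).Nonempty
        · rw [dif_pos hkl]; exact Set.finite_singleton _
        · rw [dif_neg hkl]; exact Set.finite_empty
      have hS0 : ν S = 0 := by
        have h1 : S = ⋃ x ∈ S, {x} := by simp
        rw [h1, measure_biUnion_null_iff hSf.countable]
        exact fun x _ => hν.2 x
      obtain ⟨j, hj1, hj2⟩ := hQ S hSf.isClosed hS0 ((2⁻¹ : ENNReal) ^ m) (by simp)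
      refine ⟨j, hj2, fun k hk l hl hkl => ⟨hkl.some, hj1 ?_, hkl.some_mem⟩⟩
      simp only [S, mem_iUnion]
      refine ⟨k, Finset.mem_range.2 (by omega), l, Finset.mem_range.2 (by omega), ?_⟩
      rw [dif_pos hkl]
      exact mem_singleton _
    choose q hq1 hq2 using hq
    obtain ⟨y, hyY, hy⟩ := hY q
    obtain ⟨γ, hγ⟩ := e.surjective ⟨y, hyY⟩
    obtain ⟨F', hF', hAF', hF'm⟩ := small_pm (A := a '' Iic γ)
      (Cardinal.mk_image_le.trans_lt (hIic γ)) P hP
    refine ⟨fin (O y) ∪ F', (fin_isFSigma (hOo y)).union hF', ?_, fun k => ?_⟩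
    · rintro _ ⟨ξ, rfl⟩
      by_cases hξ : ξ ≤ γ
      · exact Or.inr (hAF' ⟨ξ, hξ, rfl⟩)
      · left
        rw [hfin]
        have := ha ξ γ (not_le.1 hξ).le
        rwa [hγ] at this
    · have h1 : IsMeagre {z : P k | (z : CS) ∈ fin (O y)} := by
        refine fin_meagre (hOo y) hV _ fun l hl M => ?_
        obtain ⟨n, hn, hyn⟩ := (frequently_atTop.1 hy) (max M (max k l))
        refine ⟨n, (le_max_left _ _).trans hn, ?_⟩
        have h2 : O y n = Q (q n) := by
          show (if ν (Q (y n)) ≤ (2⁻¹ : ENNReal) ^ n then Q (y n) else ∅) = _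
          rw [hyn, if_pos (hq1 n)]
        rw [h2]
        exact hq2 n k (by omega) l (by omega) hl
      exact h1.union (hF'm k)
  · intro F hF hAF hF0
    obtain ⟨C, hC, rfl⟩ := hF
    have hq : ∀ m : ℕ, ∃ j, (⋃ i ∈ Finset.range (m + 1), C i) ⊆ Q j ∧
        ν (Q j) ≤ (2⁻¹ : ENNReal) ^ m := by
      intro m
      refine hQ _ ?_ ?_ _ (by simp)
      · exact isClosed_biUnion_finset fun i _ => hC i
      · refine measure_mono_null ?_ hF0
        exact iUnion₂_subset fun i _ => subset_iUnion C i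
    choose q hq1 hq2 using hq
    obtain ⟨y, hyY, hy⟩ := hY q
    obtain ⟨γ, hγ⟩ := e.surjective ⟨y, hyY⟩
    obtain ⟨i, hi⟩ := mem_iUnion.1 (hAF (mem_range_self γ))
    refine ha γ γ le_rfl ?_
    rw [hγ]
    show ∃ᶠ n in atTop, a γ ∈ O y n
    refine (hy.and_eventually (eventually_ge_atTop i)).mono ?_
    rintro n ⟨hn, hin⟩
    have h2 : O y n = Q (q n) := by
      show (if ν (Q (y n)) ≤ (2⁻¹ : ENNReal) ^ n then Q (y n) else ∅) = _
      rw [hn, if_pos (hq2 n)]
    rw [h2]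
    refine hq1 n ?_
    simp only [mem_iUnion]
    exact ⟨i, Finset.mem_range.2 (by omega), hi⟩

/-- the least size of a nonmeager subset of `2^ℕ` -/
noncomputable def nonM : Cardinal.{0} := sInf {c | ∃ S : Set CS, ¬ IsMeagre S ∧ #S = c}

/-- Bartoszyński's theorem -/
theorem nonM_eq : nonM = kap := by
  obtain ⟨Y, hY, hYk⟩ := kap_mem
  obtain ⟨f, hf⟩ := exists_nonmeagre hY
  have h1 : nonM ≤ kap := by
    have h2 : nonM ≤ #{x | ∃ y ∈ Y, ∃ y' ∈ Y, x = f y y'} := csInf_le' ⟨_, hf, rfl⟩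
    refine h2.trans ?_
    have h3 : {x | ∃ y ∈ Y, ∃ y' ∈ Y, x = f y y'} ⊆
        range fun p : Y × Y => f (p.1 : ℕ → ℕ) (p.2 : ℕ → ℕ) := by
      rintro _ ⟨y, hy, y', hy', rfl⟩
      exact ⟨(⟨y, hy⟩, ⟨y', hy'⟩), rfl⟩
    refine (Cardinal.mk_le_mk_of_subset h3).trans (Cardinal.mk_range_le.trans ?_)
    rw [Cardinal.mk_prod, Cardinal.lift_id, hYk]
    exact (Cardinal.mul_eq_self aleph0_le_kap).le
  refine le_antisymm h1 ?_
  obtain ⟨S, hS, hc⟩ : nonM ∈ {c : Cardinal.{0} | ∃ S : Set CS, ¬ IsMeagre S ∧ #S = c} :=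
    csInf_mem ⟨_, _, hf, rfl⟩
  have h2 : kap ≤ #(Pool.Agent.H364B.row '' S) := csInf_le' ⟨_, catches_of_nonmeagre hS, rfl⟩
  exact (h2.trans Cardinal.mk_image_le).trans hc.le

/-- a dense family of sequences of points -/
theorem exists_seq_codes : ∃ σ : ℕ → ℕ → CS, ∀ (p : ℕ → CS) (B : ℕ) (φ : ℕ → ℕ),
    ∃ j, ∀ c < B, ∀ i < φ c, σ j c i = p c i := by
  obtain ⟨τ, hτ⟩ := exists_surjective_nat (Finset (ℕ × ℕ))
  refine ⟨fun j c i => decide ((c, i) ∈ τ j), fun p B φ => ?_⟩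
  obtain ⟨j, hj⟩ := hτ ((Finset.range B).sigma (fun c => Finset.range (φ c)) |>.image
    (fun q : (Σ _ : ℕ, ℕ) => (q.1, q.2)) |>.filter fun q => p q.1 q.2 = true)
  refine ⟨j, fun c hc i hi => ?_⟩
  show decide ((c, i) ∈ τ j) = p c i
  rw [hj]
  by_cases hp : p c i = true
  · rw [hp, decide_eq_true_eq]
    refine Finset.mem_filter.2 ⟨Finset.mem_image.2 ⟨⟨c, i⟩, ?_, rfl⟩, hp⟩
    exact Finset.mem_sigma.2 ⟨Finset.mem_range.2 hc, Finset.mem_range.2 hi⟩
  · have hp' : p c i = false := by simpa using hp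
    rw [hp', decide_eq_false_iff_not]
    exact fun h => hp (Finset.mem_filter.1 h).2

/-- `x` is caught by the sequence `s`: it lies in infinitely many of the cylinders
`{x | x i = s m i for all i < φ m}`. -/
def Caught (φ : ℕ → ℕ) (s : ℕ → CS) (x : CS) : Prop :=
  ∃ᶠ m in atTop, ∀ i < φ m, x i = s m i

theorem of_small {ν : Measure CS} (hν : FiniteNonAtomic ν) {φ : ℕ → ℕ}
    (h : ∀ T : Set (ℕ → CS), #T < kap → ν {x | ∀ s ∈ T, ¬ Caught φ s x} ≠ 0) :
    ∃ A : Set CS, CountablyPerfectlyMeager A ∧ ∀ F : Set CS, IsFSigma F → A ⊆ F → ν F ≠ 0 := by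
  classical
  have : IsFiniteMeasure ν := ⟨hν.1⟩
  obtain ⟨Y, hY, hYk⟩ := kap_mem
  obtain ⟨Q, hQo, hQ⟩ := exists_open_codes ν
  obtain ⟨σ, hσ⟩ := exists_seq_codes
  -- the open sets of small measure coded by `y`
  let O : (ℕ → ℕ) → ℕ → Set CS := fun y n => if ν (Q (y n)) ≤ (2⁻¹ : ENNReal) ^ n then Q (y n) else ∅
  have hOle : ∀ y n, ν (O y n) ≤ (2⁻¹ : ENNReal) ^ n := by
    intro y n
    by_cases hn : ν (Q (y n)) ≤ (2⁻¹ : ENNReal) ^ n
    · have : O y n = Q (y n) := if_pos hn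
      rw [this]; exact hn
    · have : O y n = ∅ := if_neg hn
      rw [this, measure_empty]; exact zero_le
  let N : (ℕ → ℕ) → Set CS := fun y => {x | ∃ᶠ n in atTop, x ∈ O y n}
  have hN0 : ∀ y, ν (N y) = 0 := by
    intro y
    refine measure_setOfPred_frequently_eq_zero ?_
    refine ne_top_of_le_ne_top ?_ (ENNReal.tsum_le_tsum (hOle y))
    rw [ENNReal.tsum_geometric]
    simp
  -- the sequence of points coded by `y`
  let S : (ℕ → ℕ) → ℕ → CS := fun y m => σ (y (Nat.unpair m).1) (Nat.unpair m).2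
  let W : (ℕ → ℕ) → ℕ → Set CS := fun y m => {x | ∀ i < φ m, x i = S y m i}
  have hWo : ∀ y m, IsOpen (W y m) := fun y m => isOpen_prefix _ _
  have hW : ∀ y x, x ∈ fin (W y) ↔ ¬ Caught φ (S y) x := by
    intro y x
    show (∀ᶠ m in atTop, x ∉ W y m) ↔ ¬ ∃ᶠ m in atTop, x ∈ W y m
    rw [not_frequently]
  -- indices
  let I : Type := kap.ord.ToType
  have hI : #I = kap := by simp [I]
  obtain ⟨e⟩ : Nonempty (I ≃ Y) := Cardinal.eq.1 (hI.trans hYk.symm)
  have hIic : ∀ ξ : I, #(Iic ξ) < kap := by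
    intro ξ
    have h1 : #(Iio ξ) < kap := by
      have := Cardinal.mk_Iio_lt ξ (by simp [I])
      rwa [hI] at this
    have h2 : (Iic ξ : Set I) = insert ξ (Iio ξ) := Iio_insert.symm
    rw [h2]
    refine (Cardinal.mk_insert_le).trans_lt ?_
    exact Cardinal.add_lt_of_lt aleph0_le_kap h1 (Cardinal.one_lt_aleph0.trans_le aleph0_le_kap)
  have ha : ∀ ξ : I, ∃ a : CS, a ∉ N (e ξ : ℕ → ℕ) ∧
      ∀ η ≤ ξ, ¬ Caught φ (S (e η : ℕ → ℕ)) a := by
    intro ξ
    by_contra hcon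
    push Not at hcon
    refine h ((fun η : I => S (e η : ℕ → ℕ)) '' Iic ξ)
      (Cardinal.mk_image_le.trans_lt (hIic ξ)) ?_
    refine measure_mono_null ?_ (hN0 (e ξ : ℕ → ℕ))
    intro x hx
    by_contra hxN
    obtain ⟨η, hη, hc⟩ := hcon x hxN
    exact hx _ ⟨η, hη, rfl⟩ hc
  choose a ha1 ha2 using ha
  refine ⟨range a, ?_, ?_⟩
  · intro P hP
    obtain ⟨V, hVo, hV⟩ := exists_base
    have hq : ∀ n : ℕ, ∃ j, ∀ k ≤ n, ∀ l ≤ n, (P k ∩ V l).Nonempty →
        ({x : CS | ∀ i < φ (Nat.pair n (Nat.pair k l)), x i = σ j (Nat.pair k l) i} ∩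
          (P k ∩ V l)).Nonempty := by
      intro n
      obtain ⟨j, hj⟩ := hσ (fun c => if h : (P (Nat.unpair c).1 ∩ V (Nat.unpair c).2).Nonempty then
        h.some else fun _ => false)
        (1 + ∑ k ∈ Finset.range (n + 1), ∑ l ∈ Finset.range (n + 1), Nat.pair k l)
        (fun c => φ (Nat.pair n c))
      refine ⟨j, fun k hk l hl hkl => ⟨hkl.some, fun i hi => ?_, hkl.some_mem⟩⟩
      have hlt : Nat.pair k l <
          1 + ∑ k ∈ Finset.range (n + 1), ∑ l ∈ Finset.range (n + 1), Nat.pair k l := by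
        have h1 : ∑ l ∈ Finset.range (n + 1), Nat.pair k l ≤
            ∑ k ∈ Finset.range (n + 1), ∑ l ∈ Finset.range (n + 1), Nat.pair k l :=
          Finset.single_le_sum (f := fun k => ∑ l ∈ Finset.range (n + 1), Nat.pair k l)
            (fun _ _ => Nat.zero_le _) (Finset.mem_range.2 (by omega))
        have h2 : Nat.pair k l ≤ ∑ l ∈ Finset.range (n + 1), Nat.pair k l :=
          Finset.single_le_sum (f := fun l => Nat.pair k l)
            (fun _ _ => Nat.zero_le _) (Finset.mem_range.2 (by omega))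
        omega
      have h3 := hj (Nat.pair k l) hlt i hi
      simp only [Nat.unpair_pair] at h3
      rw [dif_pos hkl] at h3
      exact h3.symm
    choose q hq using hq
    obtain ⟨y, hyY, hy⟩ := hY q
    obtain ⟨γ, hγ⟩ := e.surjective ⟨y, hyY⟩
    obtain ⟨F', hF', hAF', hF'm⟩ := small_pm (A := a '' Iic γ)
      (Cardinal.mk_image_le.trans_lt (hIic γ)) P hP
    refine ⟨fin (W y) ∪ F', (fin_isFSigma (hWo y)).union hF', ?_, fun k => ?_⟩
    · rintro _ ⟨ξ, rfl⟩
      by_cases hξ : ξ ≤ γ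
      · exact Or.inr (hAF' ⟨ξ, hξ, rfl⟩)
      · left
        rw [hW]
        have := ha2 ξ γ (not_le.1 hξ).le
        rwa [hγ] at this
    · have h1 : IsMeagre {z : P k | (z : CS) ∈ fin (W y)} := by
        refine fin_meagre (hWo y) hV _ fun l hl M => ?_
        obtain ⟨n, hn, hyn⟩ := (frequently_atTop.1 hy) (max M (max k l))
        refine ⟨Nat.pair n (Nat.pair k l),
          ((le_max_left _ _).trans hn).trans (Nat.left_le_pair _ _), ?_⟩
        obtain ⟨x, hx1, hx2⟩ := hq n k (by omega) l (by omega) hl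
        refine ⟨x, fun i hi => ?_, hx2⟩
        rw [hx1 i hi]
        show σ (q n) (Nat.pair k l) i = σ (y (Nat.unpair (Nat.pair n (Nat.pair k l))).1)
          (Nat.unpair (Nat.pair n (Nat.pair k l))).2 i
        rw [Nat.unpair_pair]
        show σ (q n) (Nat.pair k l) i = σ (y n) (Nat.pair k l) i
        rw [hyn]
      exact h1.union (hF'm k)
  · intro F hF hAF hF0
    obtain ⟨C, hC, rfl⟩ := hF
    have hq : ∀ m : ℕ, ∃ j, (⋃ i ∈ Finset.range (m + 1), C i) ⊆ Q j ∧
        ν (Q j) ≤ (2⁻¹ : ENNReal) ^ m := by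
      intro m
      refine hQ _ ?_ ?_ _ (by simp)
      · exact isClosed_biUnion_finset fun i _ => hC i
      · refine measure_mono_null ?_ hF0
        exact iUnion₂_subset fun i _ => subset_iUnion C i
    choose q hq1 hq2 using hq
    obtain ⟨y, hyY, hy⟩ := hY q
    obtain ⟨γ, hγ⟩ := e.surjective ⟨y, hyY⟩
    obtain ⟨i, hi⟩ := mem_iUnion.1 (hAF (mem_range_self γ))
    refine ha1 γ ?_
    rw [hγ]
    show ∃ᶠ n in atTop, a γ ∈ O y n
    refine (hy.and_eventually (eventually_ge_atTop i)).mono ?_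
    rintro n ⟨hn, hin⟩
    have h2 : O y n = Q (q n) := by
      show (if ν (Q (y n)) ≤ (2⁻¹ : ENNReal) ^ n then Q (y n) else ∅) = _
      rw [hn, if_pos (hq2 n)]
    rw [h2]
    refine hq1 n ?_
    simp only [mem_iUnion]
    exact ⟨i, Finset.mem_range.2 (by omega), hi⟩

/-- If every countably perfectly meager subset of `2^ℕ` is countably perfectly null, then
`cov(N) < non(M) ≤ non(E)`, for the null ideal and the ideal `E` of any nonzero finite non-atomic
measure `ν`; moreover for every `φ`, almost every point is caught by one of fewer than `non(M)`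
sequences. -/
theorem result (h : ∀ A : Set CS, CountablyPerfectlyMeager A → CountablyPerfectlyNull A)
    (ν : Measure CS) (hν : FiniteNonAtomic ν) (h0 : ν Set.univ ≠ 0) :
    nonM ≤ nonE ν ∧ covN ν < nonM ∧
      ∀ φ : ℕ → ℕ, ∃ T : Set (ℕ → CS), #T < nonM ∧ ∀ᵐ x ∂ν, ∃ s ∈ T, Caught φ s x := by
  rw [nonM_eq]
  refine ⟨?_, ?_, fun φ => ?_⟩
  · by_contra hcon
    obtain ⟨A, hA, hA'⟩ := of_nonE h0 (not_le.1 hcon)
    obtain ⟨F, hF, hAF, hF0⟩ := h A hA ν hν
    exact hA' F hF hAF hF0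
  · by_contra hcon
    obtain ⟨A, hA, hA'⟩ := of_covN hν (not_lt.1 hcon)
    obtain ⟨F, hF, hAF, hF0⟩ := h A hA ν hν
    exact hA' F hF hAF hF0
  · by_contra hcon
    push Not at hcon
    obtain ⟨A, hA, hA'⟩ := of_small hν (φ := φ) fun T hT h1 => by
      refine hcon T hT ?_
      rw [ae_iff]
      refine measure_mono_null ?_ h1
      intro x hx
      exact not_not.1 hx
    obtain ⟨F, hF, hAF, hF0⟩ := h A hA ν hν
    exact hA' F hF hAF hF0

end Pool.Agent.Results.MP_40b13d_lc.InvariantsOfModel
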